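import Pool.Agent.Helper90.TS.CStmts

/-!
# TS, module CSEMB: stable embeddedness
-/

set_option autoImplicit false

namespace Pool.Agent.Helper90.TS

open FirstOrder Language

theorem csemb_mono {C κ μ : Type} (B : Set (κ → C)) (E : Set (μ ⊕ κ → C)) (k : ℕ) :
    ∀ {K K' : Set (μ → C)}, K ⊆ K' → LR B E k K → LR B E k K' := by
  induction k with
  | zero => exact fun h h1 => Set.Nonempty.mono h h1
  | succ k ih =>
    rintro K K' h ⟨y, hy, h1, h2⟩
    exact ⟨y, hy, ih (Set.inter_subset_inter_left _ h) h1, ih (Set.diff_subset_diff_left h) h2⟩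

theorem csemb_pred {C κ μ : Type} (B : Set (κ → C)) (E : Set (μ ⊕ κ → C)) (k : ℕ) :
    ∀ {K : Set (μ → C)}, LR B E (k + 1) K → LR B E k K := by
  induction k with
  | zero =>
    rintro K ⟨y, hy, h1, h2⟩
    exact Set.Nonempty.mono Set.inter_subset_left h1
  | succ k ih =>
    rintro K ⟨y, hy, h1, h2⟩
    exact ⟨y, hy, ih h1, ih h2⟩

theorem csemb_le {C κ μ : Type} (B : Set (κ → C)) (E : Set (μ ⊕ κ → C)) {k l : ℕ} (h : k ≤ l)
    {K : Set (μ → C)} (hl : LR B E l K) : LR B E k K := by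
  induction h with
  | refl => exact hl
  | step _ ih => exact ih (csemb_pred B E _ hl)

section

variable {L : FirstOrder.Language.{0, 0}} {C : Type} [L.Structure C]

/-- sections with parameters in `A` are definable over `A` -/
theorem csemb_sec (hP : ST_CPAR) {κ μ : Type} [Finite κ] [Finite μ] {A : Set C}
    {E : Set (μ ⊕ κ → C)} (hE : Z0 L E) (y : κ → C) (hy : Set.range y ⊆ A) :
    A.Definable L {x : μ → C | Sum.elim x y ∈ E} := by
  obtain ⟨m, ⟨e⟩⟩ := Finite.exists_equiv_fin κ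
  rw [hP]
  refine ⟨m, y ∘ e.symm, {w | w ∘ (Sum.elim Sum.inr (Sum.inl ∘ e) : μ ⊕ κ → Fin m ⊕ μ) ∈ E}, ?_, ?_, ?_⟩
  · rintro _ ⟨i, rfl⟩
    exact hy ⟨_, rfl⟩
  · exact Set.Definable.preimage_comp _ hE
  · ext x
    simp only [Set.mem_setOf_eq]
    have : (Sum.elim (y ∘ e.symm) x) ∘ (Sum.elim Sum.inr (Sum.inl ∘ e) : μ ⊕ κ → Fin m ⊕ μ)
        = Sum.elim x y := by
      funext w
      rcases w with w | w
      · rfl
      · simp
    rw [this]

/-- the set `{x | ∀ i, x i ∈ S N}` is definable -/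
theorem csemb_base {S : ℕ → Set C} (hM : Monster L C S) {μ : Type} [Finite μ] (N : ℕ) :
    Z0 L {x : μ → C | ∀ i, x i ∈ S N} := by
  have h1 : {x : μ → C | ∀ i, x i ∈ S N} = ⋂ i : μ, {x : μ → C | x i ∈ S N} := by
    ext x
    simp
  rw [h1]
  refine Set.definable_iInter_of_finite fun i => ?_
  have h2 := Set.Definable.preimage_comp (fun _ : Fin 1 => i) (hM.sortdef N)
  exact h2

theorem csemb_bound {S : ℕ → Set C} (hM : Monster L C S) {μ : Type} [Finite μ] (c : μ → C) :
    ∃ N, ∀ i, c i ∈ S N := by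
  choose N hN using fun i => hM.cover (c i)
  have := Fintype.ofFinite μ
  refine ⟨Finset.univ.sup N, fun i => hM.mono (Finset.le_sup (Finset.mem_univ i)) (hN i)⟩

/-- the neighbourhood of `c` given by the list of parameters `F` -/
def csembK (S : ℕ → Set C) {κ μ : Type} (E : Set (μ ⊕ κ → C)) (c : μ → C) (N : ℕ) :
    List (κ → C) → Set (μ → C)
  | [] => {x | ∀ i, x i ∈ S N}
  | y :: F => csembK S E c N F ∩ {x | Sum.elim x y ∈ E ↔ Sum.elim c y ∈ E}

omit [L.Structure C] in
theorem csemb_sub (S : ℕ → Set C) {κ μ : Type} (E : Set (μ ⊕ κ → C)) (c : μ → C) (N : ℕ)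
    (F : List (κ → C)) : csembK S E c N F ⊆ {x | ∀ i, x i ∈ S N} := by
  induction F with
  | nil => exact le_rfl
  | cons y F ih => exact fun x hx => ih hx.1

omit [L.Structure C] in
theorem csemb_mem (S : ℕ → Set C) {κ μ : Type} (E : Set (μ ⊕ κ → C)) (c : μ → C) (N : ℕ)
    (hc : ∀ i, c i ∈ S N) (F : List (κ → C)) : c ∈ csembK S E c N F := by
  induction F with
  | nil => exact hc
  | cons y F ih => exact ⟨ih, Iff.rfl⟩

theorem csemb_def (hP : ST_CPAR) {S : ℕ → Set C} (hM : Monster L C S) {κ μ : Type} [Finite κ]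
    [Finite μ] {A : Set C} {E : Set (μ ⊕ κ → C)} (hE : Z0 L E) (c : μ → C) (N : ℕ)
    (F : List (κ → C)) (hF : ∀ y ∈ F, Set.range y ⊆ A) : A.Definable L (csembK S E c N F) := by
  induction F with
  | nil => exact (csemb_base hM N).mono (Set.empty_subset A)
  | cons y F ih =>
    have h1 := ih (fun z hz => hF z (List.mem_cons_of_mem _ hz))
    have h2 := csemb_sec (L := L) hP hE y (hF y List.mem_cons_self)
    refine h1.inter ?_
    by_cases hc : Sum.elim c y ∈ E
    · have : {x : μ → C | Sum.elim x y ∈ E ↔ Sum.elim c y ∈ E} = {x | Sum.elim x y ∈ E} := by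
        ext x
        simp [hc]
      rw [this]
      exact h2
    · have : {x : μ → C | Sum.elim x y ∈ E ↔ Sum.elim c y ∈ E} = {x | Sum.elim x y ∈ E}ᶜ := by
        ext x
        simp [hc]
      rw [this]
      exact h2.compl

end

theorem st_CSEMB (hF : ST_CLRF) (hD : ST_CLRD) (hP : ST_CPAR) : ST_CSEMB := by
  intro L C _ S hM hS κ μ _ _ B E c hB hBb hE
  classical
  obtain ⟨N, hN⟩ := csemb_bound hM c
  set A : Set C := {y | ∃ x ∈ B, ∃ i, x i = y} with hA
  have hrange : ∀ y ∈ B, Set.range y ⊆ A := by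
    rintro y hy _ ⟨i, rfl⟩
    exact ⟨y, hy, i, rfl⟩
  have hfin : ∀ F : List (κ → C), (∀ y ∈ F, y ∈ B) → ∃ k, ¬ LR B E k (csembK S E c N F) := by
    intro F hFB
    refine hF L C S hM hS κ μ B E (csembK S E c N F) hB hBb hE ?_ ?_
    · exact (csemb_def (L := L) hP hM (A := A) hE c N F (fun y hy => hrange y (hFB y hy))).mono
        (Set.subset_univ _)
    · exact ⟨N, fun x hx i => csemb_sub S E c N F hx i⟩
  -- minimal rank
  let Q : ℕ → Prop := fun r => ∃ F : List (κ → C), (∀ y ∈ F, y ∈ B) ∧ ¬ LR B E r (csembK S E c N F)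
  have hQ : ∃ r, Q r := by
    obtain ⟨k, hk⟩ := hfin [] (by simp)
    exact ⟨k, [], by simp, hk⟩
  obtain ⟨F0, hF0, hr⟩ := Nat.find_spec hQ
  have hmin : ∀ r < Nat.find hQ, ∀ F : List (κ → C), (∀ y ∈ F, y ∈ B) →
      LR B E r (csembK S E c N F) := by
    intro r hlt F hFB
    by_contra hcon
    exact Nat.find_min hQ hlt ⟨F, hFB, hcon⟩
  obtain ⟨r, hr'⟩ : ∃ r, Nat.find hQ = r + 1 := by
    rcases h : Nat.find hQ with _ | r
    · rw [h] at hr
      exact absurd (show LR B E 0 (csembK S E c N F0) from ⟨c, csemb_mem S E c N hN F0⟩) hr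
    · exact ⟨r, rfl⟩
  rw [hr'] at hr hmin
  have key : ∀ y ∈ B, (Sum.elim c y ∈ E ↔
      LR B E r (csembK S E c N F0 ∩ {x | Sum.elim x y ∈ E})) := by
    intro y hy
    have hFB : ∀ z ∈ y :: F0, z ∈ B := by
      intro z hz
      rcases List.mem_cons.1 hz with h | h
      · rw [h]; exact hy
      · exact hF0 z h
    have h1 := hmin r (Nat.lt_succ_self r) (y :: F0) hFB
    constructor
    · intro hc
      refine csemb_mono B E r ?_ h1
      rintro x ⟨hx1, hx2⟩
      exact ⟨hx1, hx2.2 hc⟩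
    · intro h2
      by_contra hc
      apply hr
      refine ⟨y, hy, h2, csemb_mono B E r ?_ h1⟩
      rintro x ⟨hx1, hx2⟩
      exact ⟨hx1, fun h3 => hc (hx2.1 h3)⟩
  -- definability
  have hK := csemb_def (L := L) hP hM (A := A) hE c N F0 (fun y hy => hrange y (hF0 y hy))
  set W : Set (κ ⊕ μ → C) := {w | w ∘ Sum.inr ∈ csembK S E c N F0} ∩ {w | w ∘ Sum.swap ∈ E} with hW
  have hWd : A.Definable L W := by
    refine Set.Definable.inter ?_ ?_
    · exact Set.Definable.preimage_comp Sum.inr hK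
    · exact Set.Definable.preimage_comp Sum.swap (hE.mono (Set.empty_subset A))
  have hLR := hD L C κ κ μ A B E W (hB.mono (Set.empty_subset A)) (hE.mono (Set.empty_subset A)) hWd r
  have hfinal : {x | x ∈ B ∧ Sum.elim c x ∈ E}
      = B ∩ {z : κ → C | LR B E r {x | Sum.elim z x ∈ W}} := by
    ext z
    simp only [Set.mem_setOf_eq, Set.mem_inter_iff]
    refine and_congr_right fun hz => ?_
    rw [key z hz]
    have : {x | Sum.elim z x ∈ W} = csembK S E c N F0 ∩ {x | Sum.elim x z ∈ E} := by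
      ext x
      have h1 : (Sum.elim z x) ∘ Sum.swap = Sum.elim x z := by
        funext w
        rcases w with w | w <;> rfl
      simp only [hW, Set.mem_inter_iff, Set.mem_setOf_eq, h1]
      exact Iff.rfl
    rw [this]
  rw [hfinal]
  exact (hB.mono (Set.empty_subset A)).inter hLR

end Pool.Agent.Helper90.TS
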